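import Pool.Agent.H.MP_ce2c94_gt.h46.Prog

/-!
# Values of straight line programs, register by register

`rho A bs is k` is the exact value of register `k`. `rho_eq`: if instruction `k` only refers to
registers `< k` then its value is the instruction evaluated at `rho`. `vals_nth`: the register exists.
`out_le`: the final bounds in terms of `rho`.
-/

namespace Pool.Agent.H.MP_ce2c94_gt.h84

open Pool.Agent.H.MP_ce2c94_gt.h46

section

variable {P : Par} {W : Type*} [NormedCommRing W] [NormedAlgebra ℝ W] (A : Alg P W)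
  (bs : List Base)

theorem nth_append_lt {α : Type*} : ∀ (l m : List α) {k : ℕ}, k < l.length →
    nth (l ++ m) k = nth l k
  | [], _, k, h => absurd h (Nat.not_lt_zero k)
  | _ :: _, _, 0, _ => rfl
  | _ :: l, m, k + 1, h => nth_append_lt l m (Nat.lt_of_succ_lt_succ h)

theorem nth_append_len {α : Type*} : ∀ (l : List α) (a : α) (m : List α),
    nth (l ++ a :: m) l.length = some a
  | [], _, _ => rfl
  | _ :: l, a, m => nth_append_len l a m

theorem nth_lt {α : Type*} : ∀ {l : List α} {k : ℕ} {a : α}, nth l k = some a → k < l.length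
  | [], _, _, h => by simp [nth] at h
  | _ :: _, 0, _, _ => Nat.succ_pos _
  | _ :: l, k + 1, a, h => Nat.succ_lt_succ (nth_lt (l := l) (a := a) h)

/-- all references are below `k` -/
def wf (k : ℕ) : Ins → Bool
  | .tab _ _ _ => true
  | .cst _ => true
  | .add i j => Nat.blt i k && Nat.blt j k
  | .sub i j => Nat.blt i k && Nat.blt j k
  | .mul i j => Nat.blt i k && Nat.blt j k
  | .smul _ i => Nat.blt i k
  | .hlf _ i => Nat.blt i k
  | .rnd _ _ _ i => Nat.blt i k
  | .mulr i j _ _ _ => Nat.blt i k && Nat.blt j k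

theorem vals_prefix : ∀ (is : List Ins) (vs : List W), ∃ m, vals A bs is vs = vs ++ m
  | [], vs => ⟨[], by simp [vals]⟩
  | i :: is, vs => by
    obtain ⟨m, hm⟩ := vals_prefix is (vs ++ [i.val A bs vs])
    exact ⟨i.val A bs vs :: m, by rw [vals, hm, List.append_assoc]; rfl⟩

theorem val_congr {vs ws : List W} {k : ℕ} (h : ∀ i < k, nth ws i = nth vs i) {ins : Ins}
    (hw : wf k ins = true) : ins.val A bs ws = ins.val A bs vs := by
  cases ins <;> simp only [wf, Bool.and_eq_true, Nat.blt_eq] at hw <;>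
    simp only [Ins.val]
  · rw [h _ hw.1, h _ hw.2]
  · rw [h _ hw.1, h _ hw.2]
  · rw [h _ hw.1, h _ hw.2]
  · rw [h _ hw]
  · rw [h _ hw]
  · rw [h _ hw]
  · rw [h _ hw.1, h _ hw.2]

theorem vals_spec' : ∀ (is : List Ins) (vs : List W) {k : ℕ} {ins : Ins}, nth is k = some ins →
    ∃ ws m, ws.length = vs.length + k ∧ vals A bs is vs = ws ++ ins.val A bs ws :: m
  | [], _, _, _, h => by simp [nth] at h
  | i :: is, vs, 0, ins, h => by
    obtain rfl : i = ins := by simpa [nth] using h
    obtain ⟨m, hm⟩ := vals_prefix A bs is (vs ++ [i.val A bs vs])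
    exact ⟨vs, m, rfl, by rw [vals, hm, List.append_assoc]; rfl⟩
  | i :: is, vs, k + 1, ins, h => by
    obtain ⟨ws, m, h1, h2⟩ := vals_spec' is (vs ++ [i.val A bs vs]) (k := k) (ins := ins) h
    refine ⟨ws, m, ?_, by rw [vals, h2]⟩
    rw [h1, List.length_append, List.length_singleton]
    omega

/-- the exact value of register `k` -/
noncomputable def rho (is : List Ins) (k : ℕ) : W := (nth (vals A bs is []) k).getD 0

/-- the value of an instruction at a valuation of the registers -/
noncomputable def _root_.Pool.Agent.H.MP_ce2c94_gt.h46.Ins.at (ρ : ℕ → W) : Ins → W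
  | .tab n a c => match nth bs n with
    | some B => tabW A B.w a c B.I B.J B.ε B.δ B.p B.N
    | none => 0
  | .cst n => (n : W)
  | .add i j => ρ i + ρ j
  | .sub i j => ρ i - ρ j
  | .mul i j => ρ i * ρ j
  | .smul n i => n • ρ i
  | .hlf t i => (((2 : ℝ) ^ t)⁻¹) • ρ i
  | .rnd _ _ _ i => ρ i
  | .mulr i j _ _ _ => ρ i * ρ j

theorem nth_vals {is : List Ins} {k : ℕ} {ins : Ins} (h : nth is k = some ins) :
    nth (vals A bs is []) k = some (rho A bs is k) := by
  obtain ⟨ws, m, h1, h2⟩ := vals_spec' A bs is [] h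
  rw [List.length_nil, Nat.zero_add] at h1
  rw [rho, h2, ← h1, nth_append_len]
  rfl

/-- **The value of a register.** -/
theorem rho_eq {is : List Ins} {k : ℕ} {ins : Ins} (h : nth is k = some ins)
    (hw : wf k ins = true) : rho A bs is k = ins.at A bs (rho A bs is) := by
  obtain ⟨ws, m, h1, h2⟩ := vals_spec' A bs is [] h
  rw [List.length_nil, Nat.zero_add] at h1
  have h3 : rho A bs is k = ins.val A bs ws := by
    rw [rho, h2, ← h1, nth_append_len]
    rfl
  have h4 : ins.val A bs ws = ins.val A bs (vals A bs is []) := by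
    symm
    apply val_congr A bs (k := k) _ hw
    intro i hi
    rw [h2, nth_append_lt _ _ (by omega)]
  rw [h3, h4]
  cases ins <;> rfl

/-- The bounds of the final test. -/
theorem out_le {b W' h I0 J0 k' : ℕ} (A : Alg (par b W' h I0 J0 k') W) {bs : List Base}
    {is : List Ins} {os : List Out} (hc : check b W' h I0 J0 k' bs is os = true) {o : Out}
    (ho : o ∈ os) {ins : Ins} (hi : nth is o.i = some ins) :
    ‖rho A bs is o.i‖ ≤ (o.n : ℝ) / 2 ^ o.q :=
  check_sound A hc o ho _ (nth_vals A bs hi)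

end

/-! ### a small test of the use -/

section test

variable {W : Type*} [NormedCommRing W] [NormedAlgebra ℝ W]

/-- a test program: `(2 + 3) * 5 - 3` -/
def isT : List Ins := [.cst 2, .cst 3, .add 0 1, .cst 5, .mul 2 3, .sub 4 1]

theorem test {P : Par} (A : Alg P W) (bs : List Base) :
    rho A bs isT 5 = (2 + 3) * 5 - 3 := by
  have h0 : rho A bs isT 0 = ((2 : ℤ) : W) := rho_eq A bs (k := 0) (ins := .cst 2) rfl rfl
  have h1 : rho A bs isT 1 = ((3 : ℤ) : W) := rho_eq A bs (k := 1) (ins := .cst 3) rfl rfl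
  have h2 : rho A bs isT 2 = rho A bs isT 0 + rho A bs isT 1 :=
    rho_eq A bs (k := 2) (ins := .add 0 1) rfl rfl
  have h3 : rho A bs isT 3 = ((5 : ℤ) : W) := rho_eq A bs (k := 3) (ins := .cst 5) rfl rfl
  have h4 : rho A bs isT 4 = rho A bs isT 2 * rho A bs isT 3 :=
    rho_eq A bs (k := 4) (ins := .mul 2 3) rfl rfl
  have h5 : rho A bs isT 5 = rho A bs isT 4 - rho A bs isT 1 :=
    rho_eq A bs (k := 5) (ins := .sub 4 1) rfl rfl
  rw [h5, h4, h3, h2, h1, h0]
  push_cast
  ring

end test

end Pool.Agent.H.MP_ce2c94_gt.h84
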